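import Pool.Agent.Y55.Col.Key
import Pool.Agent.TH176.FB.J25

/-!
# The Fröberg–Iarrobino conjecture for `t ^ (n - 1)` powers of linear forms in `n` variables

Let `n ≥ 2`, `t ≥ 2` and `r = t ^ (n - 1)`. The triple `(n, r, d)` is expected, that is, the Hilbert
series of the quotient by the `d`-th powers of `r` generic linear forms is the truncated series
`|(1 - t ^ d) ^ r / (1 - t) ^ n|` in **all** degrees,

* for every `d ≥ (n - 2) * t ^ n`;
* for every `d` if `t = 2` and `n ≤ 6` or `n = 8`, if `t = 3` and `n ≤ 5`, and if `t ≤ 5` and `n ≤ 4`;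
* for every `d` in the cases `Case n t d`.
-/

set_option autoImplicit false

namespace Pool.Agent.Results.MP_9e2f2c_ag.PerfectPowers

open MvPolynomial

/-- The Hilbert function of the quotient of `ℂ[x_1, …, x_n]` by the ideal generated by the `d`-th
powers of the linear forms `∑ i, a (s, i) * x_i`, in degree `k`. -/
noncomputable def hilb {n r : ℕ} (d : ℕ) (a : Fin r × Fin n → ℂ) (k : ℕ) : ℤ :=
  (Module.finrank ℂ (MvPolynomial.homogeneousSubmodule (Fin n) ℂ k) : ℤ) -
    (Module.finrank ℂ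
      ↥(Submodule.restrictScalars ℂ
          (Ideal.span (Set.range fun s : Fin r =>
            (∑ i : Fin n, C (a (s, i)) * X i : MvPolynomial (Fin n) ℂ) ^ d)) ⊓
        MvPolynomial.homogeneousSubmodule (Fin n) ℂ k) : ℤ)

/-- The coefficient of `t ^ k` in `(1 - t) ^ (-n) * (1 - t ^ d) ^ r`. -/
noncomputable def co (n r d k : ℕ) : ℤ :=
  PowerSeries.coeff k
    ((PowerSeries.mk fun _ => (1 : ℤ)) ^ n * (1 - PowerSeries.X ^ d) ^ r)

open Classical in
/-- The coefficient of `t ^ k` in the series `F_{n,r,d}`, that is, of `(1 - t ^ d) ^ r / (1 - t) ^ n`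
truncated at its first coefficient that is not positive. -/
noncomputable def fro (n r d k : ℕ) : ℤ :=
  if ∀ j ≤ k, 0 < co n r d j then co n r d k else 0

/-- The triple `(n, r, d)` is expected. -/
def Expected (n r d : ℕ) : Prop :=
  ∃ P : MvPolynomial (Fin r × Fin n) ℂ, P ≠ 0 ∧
    ∀ a : Fin r × Fin n → ℂ, MvPolynomial.eval a P ≠ 0 → ∀ k : ℕ, hilb d a k = fro n r d k

/-- For every degree `k = t m + c` such that `m = k + 1 - d ≥ 1` is the multiplicity of the fat points
dual to the powers and `0 ≤ c < ((n - 2) t - n) / 2`: the multiplicity is at least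
`(n - 2) * t ^ (n - 1)`, or there are at most `t ^ (n - 1)` monomials of degree `t + c`. -/
def Case (n t d : ℕ) : Prop :=
  ∀ m c : ℕ, 1 ≤ m → d + m = t * m + c + 1 → 2 * c + n < (n - 2) * t →
    (n - 2) * t ^ (n - 1) ≤ m ∨ (t + c + (n - 1)).choose (n - 1) ≤ t ^ (n - 1)

theorem asc_le : ∀ (N x y t : ℕ), 1 ≤ t → x ≤ t * y →
    x.ascFactorial N ≤ t ^ N * y.ascFactorial N := by
  intro N
  induction N with
  | zero => intro x y t _ _; simp
  | succ N ih =>
    intro x y t ht hx
    rw [Nat.ascFactorial_succ, Nat.ascFactorial_succ]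
    have h1 : N ≤ t * N := Nat.le_mul_of_pos_left N ht
    calc (x + N) * x.ascFactorial N ≤ (t * (y + N)) * (t ^ N * y.ascFactorial N) :=
        Nat.mul_le_mul (by rw [Nat.mul_add]; omega) (ih x y t ht hx)
      _ = t ^ (N + 1) * ((y + N) * y.ascFactorial N) := by ring

/-- No forms of degree `D < t m`, numerically. -/
theorem low {N D t m : ℕ} (ht : 1 ≤ t) (h : D < t * m) :
    (D + N).choose N ≤ t ^ N * (m + N - 1).choose N := by
  have h1 := asc_le N (D + 1) m t ht h
  rw [Nat.ascFactorial_eq_factorial_mul_choose, Nat.ascFactorial_eq_factorial_mul_choose'] at h1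
  have e : t ^ N * (N.factorial * (m + N - 1).choose N) =
    N.factorial * (t ^ N * (m + N - 1).choose N) := by ring
  rw [e] at h1
  exact Nat.le_of_mul_le_mul_left h1 (Nat.factorial_pos N)

open Pool.Agent.H938R2 in
/-- The dimension in one degree. -/
theorem dimension (k t d D : ℕ) (ht : 2 ≤ t) (h : Case (k + 2) t d) :
    ForGeneral (k + 2) (t ^ (k + 1)) (fun p =>
      Module.finrank ℂ (forms (k + 2) D (fun _ => D + 1 - d) p) =
        (D + (k + 1)).choose (k + 1) - t ^ (k + 1) * (D + 1 - d + k).choose (k + 1)) := by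
  rcases Nat.eq_zero_or_pos (D + 1 - d) with hm | hm
  · rw [hm, zero_add, Nat.choose_succ_self, mul_zero, Nat.sub_zero]
    refine (forGeneral_ne_zero (by omega)).mono fun p hp => ?_
    apply le_antisymm
    · rw [← Pool.Agent.TH176.FB.card_Mon_choose (k + 1) D,
        ← Pool.Agent.TH206.Fro.dim_thm (k + 2) D ℂ]
      exact Submodule.finrank_mono fun F hF => hF.1
    · have h1 := finrank_forms_ge (k + 1) D (fun _ : Fin (t ^ (k + 1)) => 0) p hp
      have h2 : ∑ _i : Fin (t ^ (k + 1)), (0 + (k + 1) - 1).choose (k + 1) = 0 := by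
        rw [Finset.sum_const, Nat.choose_eq_zero_of_lt (by omega), smul_zero]
      rw [h2, add_zero] at h1
      exact h1
  · refine Pool.Agent.Y55.Col.uniform k t (D + 1 - d) D ht hm ?_
    unfold Pool.Agent.Y55.Col.Cs
    set m := D + 1 - d with hmd
    have e0 : k + 2 - 2 = k := by omega
    have e1 : k + 2 - 1 = k + 1 := by omega
    have e2 : k + 1 - 1 = k := by omega
    rw [e2]
    rcases Nat.lt_or_ge D (t * m) with h1 | h1
    · exact Or.inr (Or.inl h1)
    · obtain ⟨c, hc⟩ : ∃ c, D = t * m + c := ⟨D - t * m, by omega⟩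
      by_cases h2 : 2 * c + (k + 2) < k * t
      · rcases h m c hm (by omega) (by rw [e0]; exact h2) with h3 | h3
        · rw [e0, e1] at h3
          exact Or.inl h3
        · rw [e1] at h3
          refine Or.inr (Or.inr (Or.inr (Or.inl ?_)))
          have e : D + t + (k + 1) - t * m = t + c + (k + 1) := by omega
          rw [e]
          exact h3
      · refine Or.inr (Or.inr (Or.inl ?_))
        have e : 2 * t * m = 2 * (t * m) := by ring
        rw [e]
        omega

theorem co_eq {k t d D : ℕ} (hd : 1 ≤ d) (hD : D ≤ 2 * d - 1) :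
    co (k + 2) (t ^ (k + 1)) d D =
      (((D + (k + 1)).choose (k + 1) : ℕ) : ℤ) -
        ((t ^ (k + 1) * (D + 1 - d + k).choose (k + 1) : ℕ) : ℤ) := by
  have h5 : Pool.Agent.TH206.Fro.co (k + 2) (fun _ : Fin (t ^ (k + 1)) => d) D =
      co (k + 2) (t ^ (k + 1)) d D := by
    unfold Pool.Agent.TH206.Fro.co co
    rw [Finset.prod_const, Finset.card_univ, Fintype.card_fin]
  rw [← h5, Pool.Agent.TH206.Fro.co_thm (k + 2) (t ^ (k + 1)) (2 * d - 1) (fun _ => d) (by omega)
    (fun _ => by omega) D hD, Finset.sum_const, Finset.card_univ, Fintype.card_fin, nsmul_eq_mul,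
    Pool.Agent.TH176.FB.card_Mon_choose (k + 1) D]
  congr 1
  split_ifs with h
  · rw [Pool.Agent.TH176.FB.card_Mon_choose (k + 1) (D - d)]
    have e : D - d + (k + 1) = D + 1 - d + k := by omega
    rw [e]
    push_cast
    ring
  · have e : D + 1 - d = 0 := by omega
    rw [e, zero_add, Nat.choose_succ_self]
    simp

open Pool.Agent.H938R2 in
theorem general (k t d : ℕ) (ht : 2 ≤ t) (hd : 1 ≤ d) (h : Case (k + 2) t d) :
    Expected (k + 2) (t ^ (k + 1)) d := by
  classical
  have hdim := fun D : ℕ => dimension k t d D ht h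
  choose P hP hP' using hdim
  refine ⟨∏ D ∈ Finset.range (2 * d), P D, Finset.prod_ne_zero_iff.2 fun D _ => hP D,
    fun a ha K => ?_⟩
  rw [map_prod, Finset.prod_ne_zero_iff] at ha
  set p : Fin (t ^ (k + 1)) → Fin (k + 2) → ℂ := fun s i => a (s, i) with hp
  set f : Fin (t ^ (k + 1)) → MvPolynomial (Fin (k + 2)) ℂ :=
    fun s => Pool.Agent.TH176.FB.lf (p s) ^ d with hf
  have hH : ∀ D, hilb d a D = Pool.Agent.TH206.Fro.hilb f D := fun D => rfl
  -- the dimension of the ideal
  have hI : ∀ D ≤ 2 * d - 1, Module.finrank ℂ (Pool.Agent.TH176.FB.ik f D) +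
      ((D + (k + 1)).choose (k + 1) - t ^ (k + 1) * (D + 1 - d + k).choose (k + 1)) =
        (Pool.Agent.TH206.Fro.Mon (k + 2) D).card := by
    intro D hD
    have h1 := Pool.Agent.TH176.FB.emsalem_iarrobino D (fun _ : Fin (t ^ (k + 1)) => d) p
    have h2 := hP' D p (ha D (Finset.mem_range.2 (by omega)))
    have h3 : Module.finrank ℂ (Pool.Agent.TH176.FB.fat D
        (fun _ : Fin (t ^ (k + 1)) => D + 1 - d) p) =
        (D + (k + 1)).choose (k + 1) - t ^ (k + 1) * (D + 1 - d + k).choose (k + 1) := h2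
    rw [h3, Pool.Agent.TH206.Fro.dim_thm (k + 2) D ℂ] at h1
    exact h1
  have hcard := fun D => Pool.Agent.TH176.FB.card_Mon_choose (k + 1) D
  have hlast : co (k + 2) (t ^ (k + 1)) d (2 * d - 1) ≤ 0 := by
    rw [co_eq hd le_rfl, sub_nonpos]
    have e : 2 * d - 1 + 1 - d = d := by omega
    rw [e]
    have h1 := low (N := k + 1) (D := 2 * d - 1) (t := t) (m := d) (by omega) (by
      have : 2 * d ≤ t * d := Nat.mul_le_mul_right _ ht
      omega)
    have e2 : d + (k + 1) - 1 = d + k := by omega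
    rw [e2] at h1
    exact_mod_cast h1
  rw [hH]
  unfold fro
  split_ifs with hall
  · have hK : K ≤ 2 * d - 1 := by
      by_contra hcon
      push Not at hcon
      exact absurd (hall (2 * d - 1) hcon.le) (not_lt.2 hlast)
    have h1 := hI K hK
    have h2 := hall K le_rfl
    rw [co_eq hd hK] at h2 ⊢
    have h3 : Module.finrank ℂ (MvPolynomial.homogeneousSubmodule (Fin (k + 2)) ℂ K) =
      (Pool.Agent.TH206.Fro.Mon (k + 2) K).card := Pool.Agent.TH206.Fro.dim_thm (k + 2) K ℂ
    have h4 : Pool.Agent.TH206.Fro.hilb f K =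
        ((Pool.Agent.TH206.Fro.Mon (k + 2) K).card : ℤ) -
          Module.finrank ℂ (Pool.Agent.TH176.FB.ik f K) := by
      rw [← h3]
      rfl
    rw [h4]
    omega
  · push Not at hall
    obtain ⟨j, hjK, hj⟩ := hall
    obtain ⟨i, hiK, hi, hi2⟩ : ∃ i ≤ K, i ≤ 2 * d - 1 ∧ co (k + 2) (t ^ (k + 1)) d i ≤ 0 := by
      rcases Nat.lt_or_ge j (2 * d) with h1 | h1
      · exact ⟨j, hjK, by omega, hj⟩
      · exact ⟨2 * d - 1, by omega, le_rfl, hlast⟩
    have h1 := hI i hi
    rw [co_eq hd hi] at hi2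
    refine Pool.Agent.TH176.FB.hilb_zero_of_top f K
      (Pool.Agent.TH176.FB.ik_top_mono f i K hiK
        (Pool.Agent.TH176.FB.ik_top_of_card f i ?_))
    omega

/-- `(n, t ^ (n - 1), d)` is expected for all `d ≥ (n - 2) * t ^ n`, for all `d` for some `n` and `t`,
and for all `d` with `Case n t d`. -/
theorem result (n t d : ℕ) (hn : 2 ≤ n) (ht : 2 ≤ t) (hd : 1 ≤ d)
    (h : (n - 2) * t ^ n ≤ d ∨
      (t = 2 ∧ (n ≤ 6 ∨ n = 8)) ∨ (t = 3 ∧ n ≤ 5) ∨ (t ≤ 5 ∧ n ≤ 4) ∨ Case n t d) :
    Expected n (t ^ (n - 1)) d := by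
  obtain ⟨k, rfl⟩ : ∃ k, n = k + 2 := ⟨n - 2, by omega⟩
  have e0 : k + 2 - 2 = k := by omega
  have e1 : k + 2 - 1 = k + 1 := by omega
  rw [e1]
  refine general k t d ht hd ?_
  rcases h with h | h
  · intro m c hm hc hw
    left
    rw [e0] at h hw ⊢
    rw [e1]
    have hk : 1 ≤ k := by
      by_contra hcon
      have : k = 0 := by omega
      rw [this] at hw
      omega
    by_contra hcon
    push Not at hcon
    have h1 : t ^ 1 ≤ t ^ (k + 1) := Nat.pow_le_pow_right (by omega) (by omega)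
    rw [pow_one] at h1
    have h2 : k * t ≤ k * t ^ (k + 1) := Nat.mul_le_mul_left _ h1
    have h3 : t ^ (k + 2) = t * t ^ (k + 1) := by ring
    rw [h3] at h
    set A := k * t ^ (k + 1) with hA
    have h4 : k * (t * t ^ (k + 1)) = t * A := by rw [hA]; ring
    rw [h4] at h
    -- `d = (t - 1) m + c + 1`
    obtain ⟨u, rfl⟩ : ∃ u, t = u + 1 := ⟨t - 1, by omega⟩
    have h5 : u * (m + 1) ≤ u * A := Nat.mul_le_mul_left _ hcon
    have h6 : (u + 1) * m = u * m + m := by ring
    have h7 : (u + 1) * A = u * A + A := by ring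
    have h8 : u * (m + 1) = u * m + u := by ring
    omega
  · by_cases h' : Case (k + 2) t d
    · exact h'
    · intro m c hm hc hw
      right
      rw [e0] at hw
      rw [e1]
      refine Pool.Agent.Y55.Col.special (k + 1) t c ?_ ht (by omega) (by
        rw [Nat.add_sub_cancel]
        omega)
      rcases h with h | h | h | h
      · exact Or.inl ⟨h.1, by omega⟩
      · exact Or.inr (Or.inl ⟨h.1, by omega⟩)
      · exact Or.inr (Or.inr ⟨h.1, by omega⟩)
      · exact absurd h h'

end Pool.Agent.Results.MP_9e2f2c_ag.PerfectPowers
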